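import Pool.Agent.MVO.StmtsV
import Pool.Agent.Helper43_MVO.NCommon

/-!
# MVO row NV4 (first clause of class Va over `O2`)

Adapted from the row NV1 of helper88 (`Helper88_MVO/NV1.lean`).
-/

set_option autoImplicit false

namespace Pool.Agent.MVO.H37

open Pool.Agent.MVO Pool.Agent.Helper14_MV Pool.Agent.Helper2_MV
open Pool.Agent.MVO.H43

namespace Nv4

/-- the type of the second letter -/
def Yv (y : ℕ → ℕ) : Prop := y 0 = 0 ∧ y 1 = 1 ∧ y 2 = 1

/-- the first set of pairs -/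
def T1 (x y : ℕ → ℕ) : Prop := (x 0 = 2 ∧ x 1 = 1 ∧ x 2 = 0) ∧ Yv y

/-- the second set of pairs -/
def T2 (x y : ℕ → ℕ) : Prop := (1 ≤ x 1 ∧ x 2 = 0 ∧ x 0 + x 1 = 3) ∧ Yv y

theorem t1_t2 {x y : ℕ → ℕ} (h : T1 x y) : T2 x y := by
  obtain ⟨⟨h0, h1, h2⟩, hy⟩ := h
  exact ⟨⟨by omega, h2, by omega⟩, hy⟩

theorem t1_ext : TExt 2 T1 := by
  intro a a' b b' ha hb h
  obtain ⟨⟨h0, h1, h2⟩, g0, g1, g2⟩ := h
  have e0 := ha 0 (by omega); have e1 := ha 1 (by omega)
  have e2 := ha 2 (by omega)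
  have f0 := hb 0 (by omega); have f1 := hb 1 (by omega)
  have f2 := hb 2 (by omega)
  exact ⟨⟨by omega, by omega, by omega⟩, by omega, by omega, by omega⟩

theorem t2_ext : TExt 2 T2 := by
  intro a a' b b' ha hb h
  obtain ⟨⟨h1, h2, h3⟩, g0, g1, g2⟩ := h
  have e0 := ha 0 (by omega); have e1 := ha 1 (by omega)
  have e2 := ha 2 (by omega)
  have f0 := hb 0 (by omega); have f1 := hb 1 (by omega)
  have f2 := hb 2 (by omega)
  exact ⟨⟨by omega, by omega, by omega⟩, by omega, by omega, by omega⟩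

theorem yv_deg {y : ℕ → ℕ} (h : Yv y) : deg 2 y = 2 := by
  obtain ⟨g0, g1, g2⟩ := h
  rw [deg2]; omega

theorem t2_deg : TDeg 2 T2 := by
  intro a b h
  obtain ⟨⟨h1, h2, h3⟩, hy⟩ := h
  exact ⟨by rw [deg2]; omega, yv_deg hy⟩

theorem t1_deg : TDeg 2 T1 := fun a b h => t2_deg a b (t1_t2 h)

theorem t2_mul : TMul 2 1 T2 := by
  intro a b h
  have hd := t2_deg a b h
  obtain ⟨⟨h1, h2, h3⟩, g0, g1, g2⟩ := h
  exact ⟨by omega, by omega, by omega, by omega⟩

theorem t1_mul : TMul 2 1 T1 := fun a b h => t2_mul a b (t1_t2 h)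

theorem yv_iso (hISO : IsoStmt) {β : FIC} (hth : β ≤ thC3) (hi : Iso3 β) {y y' : ℕ → ℕ}
    (hy : Yv y) (h : L1 β 2 y y') : Yv y' := by
  have hy' := hy
  obtain ⟨g0, g1, g2⟩ := hy
  have h1 := hISO β hth hi 2 y y' (yv_deg hy') (by
    intro j hj
    interval_cases j <;> omega) h
  have e0 := h1 0 (by omega); have e1 := h1 1 (by omega)
  have e2 := h1 2 (by omega)
  exact ⟨by omega, by omega, by omega⟩

theorem psh_030 (f : ℕ → ℕ) (l : ℕ) : psh 2 f (v3 0 3 0) l = (if f 1 = l then 3 else 0) := by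
  rw [psh2]; simp [v3]

theorem psh_210 (f : ℕ → ℕ) (l : ℕ) : psh 2 f (v3 2 1 0) l
    = (if f 0 = l then 2 else 0) + (if f 1 = l then 1 else 0) := by
  rw [psh2]; simp [v3]

theorem key (f : ℕ → ℕ) (m01 : f 0 ≤ f 1) (m1 : f 1 ≤ 2) :
    ((1 ≤ psh 2 f (v3 0 3 0) 1 ∧ psh 2 f (v3 0 3 0) 2 = 0 ∧
        psh 2 f (v3 0 3 0) 0 + psh 2 f (v3 0 3 0) 1 = 3) ↔
      (1 ≤ psh 2 f (v3 2 1 0) 1 ∧ psh 2 f (v3 2 1 0) 2 = 0 ∧
        psh 2 f (v3 2 1 0) 0 + psh 2 f (v3 2 1 0) 1 = 3)) := by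
  simp only [psh_030, psh_210]
  generalize f 0 = u0 at *
  generalize f 1 = u1 at *
  interval_cases u1 <;> interval_cases u0 <;> decide

end Nv4

open Nv4 in
/-- NV4. -/
theorem nv4 (hLNN : LnnStmt) (hGVB : GvbStmt) (hGVN : GvnStmt) (hGVS : GvsStmt) (hGVK : GvkStmt)
    (hGAV : GavStmt) (hRGV : RgvStmt) (hWUB : WubStmt) (_hOPF : OpfStmt) (_hOCA : OcaStmt)
    (_hOCR : OcrStmt) (hISO : IsoStmt) (hFV1 : Fv1Stmt) (hFV4 : Fv4Stmt) : Nv4Stmt := by
  intro β hV hO2 hO1 hO3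
  by_contra hg
  have hth := hV.th
  have hi := hV.iso
  have hcl := hV.cl
  have hK := cen_of_cent hV.ce
  have h12 : L1 β 1 (v2 1 2) (v2 0 3) := hO2
  obtain ⟨V0, V2, -⟩ := hFV1 β hcl
  -- `(3,0) ~ (0,3)` is excluded
  have hC : ¬ L1 β 1 (v2 3 0) (v2 0 3) := by
    intro h
    refine hg (V2 1 _ _ _ 0 h (V0 1 _ _ 0 (by decide) (by decide) (by omega) ?_))
    rintro ⟨-, h1, -⟩
    simp [v2] at h1
  -- `(p,q) ~ (3,0)` is excluded for `q ≥ 1`
  have hD : ∀ p q : ℕ, p + q = 3 → 1 ≤ q → ¬ L1 β 1 (v2 p q) (v2 3 0) := by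
    intro p q hpq hq h
    have hc : q = 1 ∨ q = 2 ∨ q = 3 := by omega
    rcases hc with hc | hc | hc
    · have hp : p = 2 := by omega
      subst hp
      subst hc
      exact hO3 (l1_symm h)
    · have hp : p = 1 := by omega
      subst hp
      subst hc
      exact hC (l1_trans (l1_symm h) h12)
    · have hp : p = 0 := by omega
      subst hp
      subst hc
      exact hC (l1_symm h)
  -- `(2,1) ~ (p,q)` only if `p = 2`
  have hE : ∀ p q : ℕ, p + q = 3 → L1 β 1 (v2 2 1) (v2 p q) → p = 2 := by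
    intro p q hpq h
    have hc : p = 0 ∨ p = 1 ∨ p = 2 ∨ p = 3 := by omega
    rcases hc with hc | hc | hc | hc
    · have hq : q = 3 := by omega
      subst hc
      subst hq
      exact absurd (l1_trans h (l1_symm h12)) hO1
    · have hq : q = 2 := by omega
      subst hc
      subst hq
      exact absurd h hO1
    · exact hc
    · have hq : q = 0 := by omega
      subst hc
      subst hq
      exact absurd (l1_symm h) hO3
  -- the closure
  have hcl2 : ∀ x x' : ℕ → ℕ, (1 ≤ x 1 ∧ x 2 = 0 ∧ x 0 + x 1 = 3) → L1 β 2 x x' →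
      (1 ≤ x' 1 ∧ x' 2 = 0 ∧ x' 0 + x' 1 = 3) := by
    intro x x' hx h
    obtain ⟨h1, h2, h3⟩ := hx
    have hd : deg 2 x = 3 := by rw [deg2]; omega
    have hd' : deg 2 x' = 3 := by
      by_contra hne
      have hw := (hWUB (FC.ofFIC β) hO2 hK 2 x x' (by omega) (by omega) h).2
      rw [hd] at hw
      exact hC hw
    rw [deg2] at hd'
    have hz2 : x' 2 = 0 := by
      by_contra hne
      have hp := l1_push (bmap2 (a := 0) (b := 0) (c := 1) (k' := 1) (by omega) (by omega)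
        (by omega)) h
      rw [p001, p001, h3, h2] at hp
      exact hD _ _ hd' (by omega) (l1_symm hp)
    refine ⟨?_, hz2, by omega⟩
    by_contra hlt
    have hp := l1_push (bmap2 (a := 0) (b := 1) (c := 1) (k' := 1) (by omega) (by omega)
        (by omega)) h
    have e1 : x' 1 + x' 2 = 0 := by omega
    have e0 : x' 0 = 3 := by omega
    have e2 : x 1 + x 2 = x 1 := by omega
    rw [p011, p011, e1, e0, e2] at hp
    exact hD _ _ h3 h1 hp
  have hcl1 : ∀ x x' : ℕ → ℕ, (x 0 = 2 ∧ x 1 = 1 ∧ x 2 = 0) → L1 β 2 x x' →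
      (x' 0 = 2 ∧ x' 1 = 1 ∧ x' 2 = 0) := by
    intro x x' hx h
    obtain ⟨h0, h1, h2⟩ := hx
    obtain ⟨g1, g2, g3⟩ := hcl2 x x' ⟨by omega, h2, by omega⟩ h
    have hp := l1_push (bmap2 (a := 0) (b := 1) (c := 1) (k' := 1) (by omega) (by omega)
        (by omega)) h
    have e1 : x' 1 + x' 2 = x' 1 := by omega
    rw [p011, p011, e1, h0, h1, h2] at hp
    have h4 := hE _ _ g3 hp
    exact ⟨h4, by omega, g2⟩
  -- no exchange
  have hnx : ∀ a b : ℕ → ℕ, T2 a b → ¬ Bt β 2 a b 1 := by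
    intro a b hT hBt
    have hd := t2_deg a b hT
    obtain ⟨⟨h1, h2, h3⟩, g0, g1, g2⟩ := hT
    have h4 := hFV4 β hcl 2 1 (fl [0, 0, 1]) a b (v2 3 0) (v2 1 1) 1
      (bmap2 (by omega) (by omega) (by omega)) (by omega) (by omega) (by omega) (by omega)
      (by omega) ?_ ?_ ?_ hBt
    · exact hg h4
    · intro l hl hl1 he
      have : l = 2 := by omega
      subst this
      simp [fl] at he
    · intro j _
      rw [p001, h3, h2]
    · intro j _
      rw [p001, g0, g1, g2]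
  have hG1 : β ≤ GV 2 1 T1 := by
    refine hGVB β hth (nc2_of_iso3 hi) hcl 2 1 T1 (by omega) t1_ext t1_mul ?_ ?_
    · intro a b a' b' hT ha hb
      exact ⟨hcl1 a a' hT.1 ha, yv_iso hISO hth hi hT.2 hb⟩
    · intro a b hT
      exact hnx a b (t1_t2 hT)
  have hG2 : β ≤ GV 2 1 T2 := by
    refine hGVB β hth (nc2_of_iso3 hi) hcl 2 1 T2 (by omega) t2_ext t2_mul ?_ ?_
    · intro a b a' b' hT ha hb
      exact ⟨hcl2 a a' hT.1 ha, yv_iso hISO hth hi hT.2 hb⟩
    · intro a b hT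
      exact hnx a b hT
  -- the exchange in `G1`
  have hBt1 : Bt (GV 2 1 T1) 2 (v3 0 3 0) (v3 0 1 1) 1 := by
    refine hGVS 2 1 T1 t1_ext t1_deg 2 _ _ (by decide) (by decide) ?_ 1
    intro f hf hT
    obtain ⟨⟨h0, h1, h2⟩, -⟩ := hT
    rw [psh_030] at h0
    by_cases hf1 : f 1 = 0
    · rw [if_pos hf1] at h0
      omega
    · rw [if_neg hf1] at h0
      omega
  -- the type change in `G2`
  have hL2 : L1 (GV 2 1 T2) 2 (v3 0 3 0) (v3 2 1 0) := by
    refine hGVK 2 1 3 T2 (by omega) t2_ext t2_deg t2_mul ?_ 2 1 _ _ (by decide) (by decide)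
      (by omega) ?_ ?_ ?_
    · intro a b hT
      rw [Finset.sum_range_succ, Finset.sum_range_one]
      exact hT.1.2.2
    · constructor <;> decide
    · constructor <;> decide
    · intro f hf b
      have m01 : f 0 ≤ f 1 := hf.mono 0 1 (by omega) (by omega)
      have m1 : f 1 ≤ 2 := hf.le 1 (by omega)
      have hk := key f m01 m1
      constructor
      · rintro ⟨h1, h2⟩
        exact ⟨hk.mp h1, h2⟩
      · rintro ⟨h1, h2⟩
        exact ⟨hk.mpr h1, h2⟩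
  have hfin := hLNN β hth (nc2_of_iso3 hi) (hGAV β hcl.1) (hRGV β hcl) hV.md _ _ hG1 hG2 2
    (v3 0 3 0) (v3 2 1 0) (v3 0 1 1) 1 (by decide) (by decide) (by decide) (by omega)
    hBt1 hL2
  rcases hfin with h | h
  · exact hGVN 2 1 T1 (by omega) t1_ext t1_mul _ _
      ⟨⟨by decide, by decide, by decide⟩, rfl, rfl, rfl⟩ h
  · exact hGVN 2 1 T2 (by omega) t2_ext t2_mul _ _
      ⟨⟨by decide, by decide, by decide⟩, rfl, rfl, rfl⟩ h

end Pool.Agent.MVO.H37
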