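import Pool.Agent.MVO.StmtsV
import Pool.Agent.Helper51_MVO.NCE

/-!
# MVO row NV5 (the general form of the second clause of class Va over `O2`)

The scheme is the one of the row NV7 of helper28 (`Helper28_MVO/NV7.lean`); the small lemmas about
vectors are those of helper51 (`Helper51_MVO/NCE.lean`).
-/

set_option autoImplicit false

namespace Pool.Agent.MVO.H37

open Pool.Agent.Helper14_MV Pool.Agent.Helper2_MV Pool.Agent.MVO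
open Pool.Agent.MVO.H51 (psh3 deg3 deg2 bmap4 pushR cut0 cut1 cut2 cent_v iso21)

namespace Nv5

theorem mid2 (R : FC) {x x' : ℕ → ℕ} (h : R.R 3 x x') :
    R.R 2 (v3 (x 0) (x 1) (x 2 + x 3)) (v3 (x' 0) (x' 1) (x' 2 + x' 3)) := by
  refine pushR R 2 (v4 0 1 2 2) (bmap4 (by omega) (by omega) (by omega) (by omega)) h ?_ ?_
  · intro j hj; interval_cases j <;> simp [psh3, v4, v3]
  · intro j hj; interval_cases j <;> simp [psh3, v4, v3]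

/-- the rule: the types `(0,2,r,s)` and `(1,1,r,s)` are alone in their classes -/
theorem rule5 (R : FC) (hO2 : O2 R) (hO1 : ¬ O1 R) (hO3 : ¬ O3 R) (hJ : ¬ JJ R) {r s : ℕ}
    (hrs : r + s = 1) {x x' : ℕ → ℕ} (h : R.R 3 x x') (hd' : deg 3 x' = 3) (h0 : x 0 ≤ 1)
    (h1 : x 0 + x 1 = 2) (h2 : x 2 = r) (h3 : x 3 = s) :
    x' 0 = x 0 ∧ x' 1 = x 1 ∧ x' 2 = r ∧ x' 3 = s := by
  rw [deg3] at hd'
  have c1 := cut1 R h
  rw [h1, show x 2 + x 3 = 1 by omega] at c1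
  obtain ⟨e1, e2⟩ := iso21 R hO1 hO2 hO3 (by omega) c1
  have c2 := cut2 R h
  have e3 : x' 3 = s := by
    have hs : s = 0 ∨ s = 1 := by omega
    rcases hs with hs | hs
    · subst hs
      by_contra hc
      have f3 : x' 3 = 1 := by omega
      rw [show x 0 + x 1 + x 2 = 3 by omega, h3, show x' 0 + x' 1 + x' 2 = 2 by omega, f3] at c2
      exact hO3 c2
    · subst hs
      rw [show x 0 + x 1 + x 2 = 2 by omega, h3] at c2
      exact (iso21 R hO1 hO2 hO3 (by omega) c2).2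
  have c0 := cut0 R h
  have e0 : x' 0 ≤ 1 := by
    by_contra hc
    rw [show x' 0 = 2 by omega, show x' 1 + x' 2 + x' 3 = 1 by omega] at c0
    have := iso21 R hO1 hO2 hO3 (by omega) (R.symm c0)
    omega
  have e4 : x' 0 = x 0 := by
    by_contra hc
    have c3 := mid2 R h
    have hcase : (x 0 = 0 ∧ x' 0 = 1) ∨ (x 0 = 1 ∧ x' 0 = 0) := by omega
    rw [show x 2 + x 3 = 1 by omega, show x' 2 + x' 3 = 1 by omega] at c3
    rcases hcase with ⟨a, b⟩ | ⟨a, b⟩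
    · rw [a, b, show x 1 = 2 by omega, show x' 1 = 1 by omega] at c3
      exact hJ (R.symm c3)
    · rw [a, b, show x 1 = 1 by omega, show x' 1 = 2 by omega] at c3
      exact hJ c3
  exact ⟨e4, by omega, by omega, e3⟩

/-- the first set -/
def TU (r s : ℕ) (b : ℕ → ℕ) (x y : ℕ → ℕ) : Prop :=
  (x 0 = 1 ∧ x 1 = 1 ∧ x 2 = r ∧ x 3 = s) ∧ ∀ j ≤ 3, y j = b j

/-- the second set -/
def TW (r s : ℕ) (b : ℕ → ℕ) (x y : ℕ → ℕ) : Prop :=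
  (x 0 ≤ 1 ∧ x 0 + x 1 = 2 ∧ x 2 = r ∧ x 3 = s) ∧ ∀ j ≤ 3, y j = b j

theorem TU_ext (r s : ℕ) (b : ℕ → ℕ) : TExt 3 (TU r s b) := by
  intro a a' c c' h h' hT
  obtain ⟨h1, h2⟩ := hT
  refine ⟨?_, ?_⟩
  · rw [← h 0 (by omega), ← h 1 (by omega), ← h 2 (by omega), ← h 3 (by omega)]
    exact h1
  · intro j hj
    rw [← h' j hj]
    exact h2 j hj

theorem TW_ext (r s : ℕ) (b : ℕ → ℕ) : TExt 3 (TW r s b) := by
  intro a a' c c' h h' hT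
  obtain ⟨h1, h2⟩ := hT
  refine ⟨?_, ?_⟩
  · rw [← h 0 (by omega), ← h 1 (by omega), ← h 2 (by omega), ← h 3 (by omega)]
    exact h1
  · intro j hj
    rw [← h' j hj]
    exact h2 j hj

/-- the data of one of the four cases -/
structure Dat (r s : ℕ) (b : ℕ → ℕ) (i m : ℕ) : Prop where
  rs : r + s = 1
  bd : b 0 + b 1 + b 2 + b 3 = 2
  b1 : ∀ j ≤ 3, b j ≤ 1
  bi : 1 ≤ b i
  im : (i = 1 ∧ m = 2) ∨ (i = 2 ∧ r = 1 ∧ m = 3) ∨ (i = 3 ∧ s = 1 ∧ m = 3)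

theorem Dat.i3 {r s : ℕ} {b : ℕ → ℕ} {i m : ℕ} (D : Dat r s b i m) : i ≤ 3 := by
  have := D.im
  omega

theorem Dat.i1 {r s : ℕ} {b : ℕ → ℕ} {i m : ℕ} (D : Dat r s b i m) : 1 ≤ i := by
  have := D.im
  omega

theorem tw_y {r s : ℕ} {b : ℕ → ℕ} {i m : ℕ} (D : Dat r s b i m) {y : ℕ → ℕ}
    (h : ∀ j ≤ 3, y j = b j) : deg 3 y = 2 ∧ 1 ≤ y i := by
  have h0 := h 0 (by omega)
  have h1 := h 1 (by omega)
  have h2 := h 2 (by omega)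
  have h3 := h 3 (by omega)
  have hi := h i D.i3
  have := D.bd
  have := D.bi
  rw [deg3]
  omega

theorem tw_x {r s : ℕ} {b : ℕ → ℕ} {i m : ℕ} (D : Dat r s b i m) {x : ℕ → ℕ}
    (h : x 0 ≤ 1 ∧ x 0 + x 1 = 2 ∧ x 2 = r ∧ x 3 = s) : deg 3 x = 3 ∧ 1 ≤ x i := by
  have hrs := D.rs
  obtain ⟨h0, h1, h2, h3⟩ := h
  rw [deg3]
  refine ⟨by omega, ?_⟩
  rcases D.im with ⟨rfl, -⟩ | ⟨rfl, hr, -⟩ | ⟨rfl, hs, -⟩ <;> omega

theorem tu_tw {r s : ℕ} {b x y : ℕ → ℕ} (h : TU r s b x y) : TW r s b x y := by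
  obtain ⟨⟨h0, h1, h2, h3⟩, h4⟩ := h
  exact ⟨⟨by omega, by omega, h2, h3⟩, h4⟩

theorem TW_deg {r s : ℕ} {b : ℕ → ℕ} {i m : ℕ} (D : Dat r s b i m) : TDeg 3 (TW r s b) :=
  fun _ _ h => ⟨(tw_x D h.1).1, (tw_y D h.2).1⟩

theorem TU_deg {r s : ℕ} {b : ℕ → ℕ} {i m : ℕ} (D : Dat r s b i m) : TDeg 3 (TU r s b) :=
  fun a c h => TW_deg D a c (tu_tw h)

theorem TW_mul {r s : ℕ} {b : ℕ → ℕ} {i m : ℕ} (D : Dat r s b i m) : TMul 3 i (TW r s b) := by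
  intro a c h
  have h1 := tw_x D h.1
  have h2 := tw_y D h.2
  exact ⟨by omega, by omega, h1.2, h2.2⟩

theorem TU_mul {r s : ℕ} {b : ℕ → ℕ} {i m : ℕ} (D : Dat r s b i m) : TMul 3 i (TU r s b) :=
  fun a c h => TW_mul D a c (tu_tw h)

/-- value of a pushed vector -/
def pv (f0 f1 f2 f3 p q r u j : ℕ) : ℕ := (if f0 = j then p else 0) +
    (if f1 = j then q else 0) + (if f2 = j then r else 0) + (if f3 = j then u else 0)

theorem comb : ∀ f0 f1 f2 f3 : Fin 4, f0 ≤ f1 → f1 ≤ f2 → f2 ≤ f3 →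
    (((pv f0 f1 f2 f3 0 2 1 0 0 ≤ 1 ∧ pv f0 f1 f2 f3 0 2 1 0 0 + pv f0 f1 f2 f3 0 2 1 0 1 = 2 ∧
      pv f0 f1 f2 f3 0 2 1 0 2 = 1 ∧ pv f0 f1 f2 f3 0 2 1 0 3 = 0) ↔
    (pv f0 f1 f2 f3 1 1 1 0 0 ≤ 1 ∧ pv f0 f1 f2 f3 1 1 1 0 0 + pv f0 f1 f2 f3 1 1 1 0 1 = 2 ∧
      pv f0 f1 f2 f3 1 1 1 0 2 = 1 ∧ pv f0 f1 f2 f3 1 1 1 0 3 = 0)) ∧
    ((pv f0 f1 f2 f3 0 2 0 1 0 ≤ 1 ∧ pv f0 f1 f2 f3 0 2 0 1 0 + pv f0 f1 f2 f3 0 2 0 1 1 = 2 ∧
      pv f0 f1 f2 f3 0 2 0 1 2 = 0 ∧ pv f0 f1 f2 f3 0 2 0 1 3 = 1) ↔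
    (pv f0 f1 f2 f3 1 1 0 1 0 ≤ 1 ∧ pv f0 f1 f2 f3 1 1 0 1 0 + pv f0 f1 f2 f3 1 1 0 1 1 = 2 ∧
      pv f0 f1 f2 f3 1 1 0 1 2 = 0 ∧ pv f0 f1 f2 f3 1 1 0 1 3 = 1))) := by
  decide

theorem v4_0 (a b c d : ℕ) : v4 a b c d 0 = a := by simp [v4]
theorem v4_1 (a b c d : ℕ) : v4 a b c d 1 = b := by simp [v4]
theorem v4_2 (a b c d : ℕ) : v4 a b c d 2 = c := by simp [v4]
theorem v4_3 (a b c d : ℕ) : v4 a b c d 3 = d := by simp [v4]

theorem bt_G (hGVS : GvsStmt) {r s : ℕ} {b : ℕ → ℕ} {i m : ℕ} (D : Dat r s b i m) :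
    Bt (GV 3 i (TU r s b)) 3 (v4 0 2 r s) b i := by
  have hrs := D.rs
  refine hGVS 3 i (TU r s b) (TU_ext r s b) (TU_deg D) 3 (v4 0 2 r s) b
    (by rw [deg3, v4_0, v4_1, v4_2, v4_3]; omega) (by rw [deg3]; exact D.bd) ?_ i
  rintro f hf ⟨⟨h1, h2, h3, h4⟩, -⟩
  rw [psh3, v4_0, v4_1, v4_2, v4_3] at h1 h2 h3 h4
  have hf1 := hf.le 1 (by omega)
  have hc : f 1 = 0 ∨ f 1 = 1 ∨ f 1 = 2 ∨ f 1 = 3 := by omega
  rcases hc with h | h | h | h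
  · rw [if_pos h] at h1; omega
  · rw [if_pos h] at h2; omega
  · rw [if_pos h] at h3; omega
  · rw [if_pos h] at h4; omega

theorem l1_G (hGVK : GvkStmt) {r s : ℕ} {b : ℕ → ℕ} {i m : ℕ} (D : Dat r s b i m) :
    L1 (GV 3 i (TW r s b)) 3 (v4 0 2 r s) (v4 1 1 r s) := by
  have hrs := D.rs
  have him := D.im
  refine hGVK 3 i m (TW r s b) D.i3 (TW_ext r s b) (TW_deg D) (TW_mul D) ?_ 3 i
    (v4 0 2 r s) (v4 1 1 r s) (by rw [deg3, v4_0, v4_1, v4_2, v4_3]; omega)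
    (by rw [deg3, v4_0, v4_1, v4_2, v4_3]; omega) D.i3 ?_ ?_ ?_
  · rintro a c ⟨⟨h1, h2, h3, h4⟩, -⟩
    rcases him with ⟨rfl, rfl⟩ | ⟨rfl, hr, rfl⟩ | ⟨rfl, hs, rfl⟩ <;>
      simp only [Finset.sum_range_succ, Finset.sum_range_zero, zero_add] <;> omega
  · rcases him with ⟨rfl, rfl⟩ | ⟨rfl, hr, rfl⟩ | ⟨rfl, hs, rfl⟩ <;>
      simp only [Occ, Finset.sum_range_succ, Finset.sum_range_zero, zero_add, v4_0, v4_1, v4_2,
        v4_3] <;> omega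
  · rcases him with ⟨rfl, rfl⟩ | ⟨rfl, hr, rfl⟩ | ⟨rfl, hs, rfl⟩ <;>
      simp only [Occ, Finset.sum_range_succ, Finset.sum_range_zero, zero_add, v4_0, v4_1, v4_2,
        v4_3] <;> omega
  · intro f hf y
    unfold TW
    simp only [psh3, v4_0, v4_1, v4_2, v4_3]
    have m01 := hf.mono 0 1 (by omega) (by omega)
    have m12 := hf.mono 1 2 (by omega) (by omega)
    have m23 := hf.mono 2 3 (by omega) (by omega)
    have l3 := hf.le 3 (by omega)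
    have hc := comb ⟨f 0, by omega⟩ ⟨f 1, by omega⟩ ⟨f 2, by omega⟩ ⟨f 3, by omega⟩ m01 m12 m23
    simp only [pv] at hc
    refine and_congr_left fun _ => ?_
    have hcase : (r = 1 ∧ s = 0) ∨ (r = 0 ∧ s = 1) := by omega
    rcases hcase with ⟨rfl, rfl⟩ | ⟨rfl, rfl⟩
    · exact hc.1
    · exact hc.2

/-- the main case -/
theorem aux (hLNN : LnnStmt) (hGVB : GvbStmt) (hGVN : GvnStmt) (hGVS : GvsStmt)
    (hGVK : GvkStmt) (hGAV : GavStmt) (hRGV : RgvStmt) (hWUB : WubStmt) (hISO : IsoStmt)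
    (hFV4 : Fv4Stmt) {β : FIC} (H : HypV β) (hO2 : O2 (FC.ofFIC β)) (hO1 : ¬ O1 (FC.ofFIC β))
    (hO3 : ¬ O3 (FC.ofFIC β)) (hJ : ¬ JJ (FC.ofFIC β)) {r s : ℕ} {b : ℕ → ℕ} {i m : ℕ}
    (D : Dat r s b i m) :
    Bt β 2 (psh 3 (v4 0 0 1 2) (v4 1 1 r s)) (psh 3 (v4 0 0 1 2) b) (v4 0 0 1 2 i) := by
  by_contra hv
  have hrs := D.rs
  have hi3 := D.i3
  have hi1 := D.i1
  have hNC : NC2 β := by
    intro h
    have := iso_ab H.iso (a := 0) (b := 1) (by decide) h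
    simp at this
  have hsg : deg 3 (sg 0 3) = 3 := by simp [deg3, sg]
  have hsg0 : sg 0 3 0 = 3 := by simp [sg]
  -- degrees
  have hdeg : ∀ x x' : ℕ → ℕ, (x 0 ≤ 1 ∧ x 0 + x 1 = 2 ∧ x 2 = r ∧ x 3 = s) → L1 β 3 x x' →
      deg 3 x' = 3 := by
    intro x x' hx h
    by_contra hd'
    have hd : deg 3 x = 3 := (tw_x D hx).1
    have h1 := (hWUB (FC.ofFIC β) hO2 (cent_v H.ce) 3 x x' (by omega) (by omega) h).1 0
      (by omega)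
    rw [hd] at h1
    have h2 := rule5 (FC.ofFIC β) hO2 hO1 hO3 hJ hrs h1 hsg hx.1 hx.2.1 hx.2.2.1 hx.2.2.2
    omega
  have hy : ∀ y y' : ℕ → ℕ, (∀ j ≤ 3, y j = b j) → L1 β 3 y y' → ∀ j ≤ 3, y' j = b j := by
    intro y y' hy h j hj
    have h1 := hISO β H.th H.iso 3 y y' (tw_y D hy).1 (by
      intro j hj
      rw [hy j hj]
      exact D.b1 j hj) h
    rw [h1 j hj]
    exact hy j hj
  -- closure
  have clA : ∀ a c a' c', TU r s b a c → L1 β 3 a a' → L1 β 3 c c' → TU r s b a' c' := by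
    intro a c a' c' hT ha hc
    have hx := (tu_tw hT).1
    obtain ⟨h1, h2⟩ := hT
    have hd := hdeg a a' hx ha
    have h3 := rule5 (FC.ofFIC β) hO2 hO1 hO3 hJ hrs ha hd hx.1 hx.2.1 hx.2.2.1 hx.2.2.2
    exact ⟨by omega, hy c c' h2 hc⟩
  have clB : ∀ a c a' c', TW r s b a c → L1 β 3 a a' → L1 β 3 c c' → TW r s b a' c' := by
    intro a c a' c' hT ha hc
    obtain ⟨hx, h2⟩ := hT
    have hd := hdeg a a' hx ha
    have h3 := rule5 (FC.ofFIC β) hO2 hO1 hO3 hJ hrs ha hd hx.1 hx.2.1 hx.2.2.1 hx.2.2.2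
    exact ⟨by omega, hy c c' h2 hc⟩
  -- no exchange
  have nex : ∀ x y : ℕ → ℕ, (x 0 ≤ 1 ∧ x 0 + x 1 = 2 ∧ x 2 = r ∧ x 3 = s) →
      (∀ j ≤ 3, y j = b j) → ¬ Bt β 3 x y i := by
    intro x y hx hy hB
    apply hv
    have hdx := tw_x D hx
    have hdy := tw_y D hy
    obtain ⟨x0, x1, x2, x3⟩ := hx
    have y0 := hy 0 (by omega)
    have y1 := hy 1 (by omega)
    have y2 := hy 2 (by omega)
    have y3 := hy 3 (by omega)
    refine hFV4 β H.cl 3 2 (v4 0 0 1 2) x y _ _ i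
      (bmap4 (by omega) (by omega) (by omega) (by omega)) hi3 hdx.2 hdy.2
      (by omega) (by omega) ?_ ?_ ?_ hB
    · intro l hl hil hfl
      exfalso
      interval_cases i <;> interval_cases l <;> simp [v4] at hfl
    · intro j hj
      rw [psh3, psh3]
      interval_cases j <;> simp [v4] <;> omega
    · intro j hj
      rw [psh3, psh3]
      interval_cases j <;> simp [v4] <;> omega
  have hG1 : β ≤ GV 3 i (TU r s b) :=
    hGVB β H.th hNC H.cl 3 i (TU r s b) hi3 (TU_ext r s b) (TU_mul D) clA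
      (fun a c hT => nex a c (tu_tw hT).1 hT.2)
  have hG2 : β ≤ GV 3 i (TW r s b) :=
    hGVB β H.th hNC H.cl 3 i (TW r s b) hi3 (TW_ext r s b) (TW_mul D) clB
      (fun a c hT => nex a c hT.1 hT.2)
  have hBt := bt_G hGVS D
  have hL := l1_G hGVK D
  have hTU : TU r s b (v4 1 1 r s) b := ⟨by simp [v4], fun _ _ => rfl⟩
  have hTW : TW r s b (v4 1 1 r s) b := tu_tw hTU
  rcases hLNN β H.th hNC (hGAV β H.cl.1) (hRGV β H.cl) H.md (GV 3 i (TU r s b))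
    (GV 3 i (TW r s b)) hG1 hG2 3 (v4 0 2 r s) (v4 1 1 r s) b i
    (by rw [deg3, v4_0, v4_1, v4_2, v4_3]; omega) (by rw [deg3, v4_0, v4_1, v4_2, v4_3]; omega)
    (by rw [deg3]; exact D.bd.ge) hi3 hBt hL with h | h
  · exact hGVN 3 i (TU r s b) hi3 (TU_ext r s b) (TU_mul D) _ _ hTU h
  · exact hGVN 3 i (TW r s b) hi3 (TW_ext r s b) (TW_mul D) _ _ hTW h

end Nv5

open Nv5 in
/-- NV5. -/
theorem nv5 (hLNN : LnnStmt) (hGVB : GvbStmt) (hGVN : GvnStmt) (hGVS : GvsStmt)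
    (hGVK : GvkStmt) (hGAV : GavStmt) (hRGV : RgvStmt) (hWUB : WubStmt) (_hOPF : OpfStmt)
    (_hOCA : OcaStmt) (_hOCR : OcrStmt) (hISO : IsoStmt) (hFV4 : Fv4Stmt) : Nv5Stmt := by
  intro β H hO2 hO1 hO3 hJ a a' b i m hcase
  rcases hcase with ⟨-, rfl, rfl, rfl, rfl⟩ | ⟨-, rfl, rfl, rfl, rfl⟩ | ⟨-, rfl, rfl, rfl, rfl⟩ |
    ⟨-, rfl, rfl, rfl, rfl⟩
  · refine aux hLNN hGVB hGVN hGVS hGVK hGAV hRGV hWUB hISO hFV4 H hO2 hO1 hO3 hJ (m := 2)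
      ⟨by omega, by simp [v4], ?_, by simp [v4], by omega⟩
    intro j hj
    interval_cases j <;> simp [v4]
  · refine aux hLNN hGVB hGVN hGVS hGVK hGAV hRGV hWUB hISO hFV4 H hO2 hO1 hO3 hJ (m := 2)
      ⟨by omega, by simp [v4], ?_, by simp [v4], by omega⟩
    intro j hj
    interval_cases j <;> simp [v4]
  · refine aux hLNN hGVB hGVN hGVS hGVK hGAV hRGV hWUB hISO hFV4 H hO2 hO1 hO3 hJ (m := 3)
      ⟨by omega, by simp [v4], ?_, by simp [v4], by omega⟩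
    intro j hj
    interval_cases j <;> simp [v4]
  · refine aux hLNN hGVB hGVN hGVS hGVK hGAV hRGV hWUB hISO hFV4 H hO2 hO1 hO3 hJ (m := 3)
      ⟨by omega, by simp [v4], ?_, by simp [v4], by omega⟩
    intro j hj
    interval_cases j <;> simp [v4]

end Pool.Agent.MVO.H37
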